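import Mathlib

set_option autoImplicit false

open Set Filter Topology

namespace Pool.Agent.H8.KPc

/-- `X` is κ-pseudocompact -/
def KP (κ : Cardinal.{0}) (X : Type) [TopologicalSpace X] : Prop :=
  ∀ (Z : Type) [TopologicalSpace Z] [T35Space Z],
    (∃ B : Set (Set Z), TopologicalSpace.IsTopologicalBasis B ∧ Cardinal.mk B ≤ κ) →
    ∀ f : X → Z, Continuous f → IsCompact (Set.range f)

def Bdd (X : Type) [TopologicalSpace X] : Prop :=
  ∀ f : C(X, ℝ), ∃ C : ℝ, ∀ x, |f x| ≤ C

theorem bdd_of_kp {κ : Cardinal.{0}} (hκ : Cardinal.aleph0 ≤ κ) {X : Type} [TopologicalSpace X]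
    (h : KP κ X) : Bdd X := by
  intro f
  have hc := h ℝ ⟨TopologicalSpace.countableBasis ℝ, TopologicalSpace.isBasis_countableBasis ℝ,
    (Cardinal.le_aleph0_iff_set_countable.2 (TopologicalSpace.countable_countableBasis ℝ)).trans hκ⟩
    f f.continuous
  obtain ⟨C, hC⟩ := hc.isBounded.exists_norm_le
  exact ⟨C, fun x => by simpa [Real.norm_eq_abs] using hC _ ⟨x, rfl⟩⟩

theorem exists_delta {X : Type} (I : Finset X) (u : X → Set ℝ)
    (h : ∀ a ∈ I, IsOpen (u a) ∧ (0 : ℝ) ∈ u a) :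
    ∃ δ : ℝ, 0 < δ ∧ ∀ a ∈ I, ∀ t : ℝ, |t| < δ → t ∈ u a := by
  classical
  induction I using Finset.induction_on with
  | empty => exact ⟨1, one_pos, by simp⟩
  | insert i F hi ih =>
    obtain ⟨δ, hδ, hd⟩ := ih fun a ha => h a (Finset.mem_insert_of_mem ha)
    obtain ⟨ho, h0⟩ := h i (Finset.mem_insert_self _ _)
    obtain ⟨ε, hε, hb⟩ := Metric.isOpen_iff.1 ho 0 h0
    refine ⟨min δ ε, lt_min hδ hε, ?_⟩
    intro a ha t ht
    rcases Finset.mem_insert.1 ha with rfl | ha
    · apply hb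
      rw [Metric.mem_ball, Real.dist_eq, sub_zero]
      exact lt_of_lt_of_le ht (min_le_right _ _)
    · exact hd a ha t (lt_of_lt_of_le ht (min_le_left _ _))

/-- a linear map continuous for the pointwise topologies is, at each point, controlled by
finitely many points -/
theorem evalbound {X Y : Type} [TopologicalSpace X] [TopologicalSpace Y]
    (T : C(X, ℝ) → C(Y, ℝ)) (hT0 : T 0 = 0)
    (hT : @Continuous C(X, ℝ) (Y → ℝ)
            (TopologicalSpace.induced (fun g : C(X, ℝ) => (g : X → ℝ))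
              (inferInstance : TopologicalSpace (X → ℝ)))
            (inferInstance : TopologicalSpace (Y → ℝ))
            (fun g => ((T g : C(Y, ℝ)) : Y → ℝ))) (y : Y) :
    ∃ S : Finset X, ∃ δ : ℝ, 0 < δ ∧ ∀ u : C(X, ℝ), (∀ x ∈ S, |u x| < δ) → |T u y| < 1 := by
  have h1 : IsOpen {v : Y → ℝ | |v y| < 1} :=
    isOpen_lt (continuous_abs.comp (continuous_apply y)) continuous_const
  have h2 := @Continuous.isOpen_preimage C(X, ℝ) (Y → ℝ)
    (TopologicalSpace.induced (fun g : C(X, ℝ) => (g : X → ℝ))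
      (inferInstance : TopologicalSpace (X → ℝ))) inferInstance _ hT _ h1
  obtain ⟨W, hW, hWe⟩ := h2
  have h0 : ((0 : C(X, ℝ)) : X → ℝ) ∈ W := by
    have : (0 : C(X, ℝ)) ∈ (fun g : C(X, ℝ) => (g : X → ℝ)) ⁻¹' W := by
      rw [hWe]
      simp [hT0]
    exact this
  obtain ⟨I, u, hu, hsub⟩ := isOpen_pi_iff.1 hW _ h0
  obtain ⟨δ, hδ, hd⟩ := exists_delta I u (by simpa using hu)
  refine ⟨I, δ, hδ, fun v hv => ?_⟩
  have hvW : (v : X → ℝ) ∈ W := hsub fun a ha => hd a ha _ (hv a ha)
  have : v ∈ (fun g : C(X, ℝ) => (g : X → ℝ)) ⁻¹' W := hvW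
  rw [hWe] at this
  exact this

section
variable {X Y : Type} [TopologicalSpace X] [TopologicalSpace Y]

/-- pseudocompactness is preserved -/
theorem bdd_transfer (T : C(X, ℝ) ≃ₗ[ℝ] C(Y, ℝ))
    (hT : ∀ y : Y, ∃ S : Finset X, ∃ δ : ℝ, 0 < δ ∧
      ∀ u : C(X, ℝ), (∀ x ∈ S, |u x| < δ) → |T u y| < 1)
    (hX : Bdd X) : Bdd Y := by
  intro v
  by_contra hcon
  push Not at hcon
  -- the numbers N y
  have hN : ∀ y : Y, ∃ N : ℝ, 0 < N ∧ ∀ u : C(X, ℝ), ∀ M : ℝ, 0 < M → (∀ x, |u x| ≤ M) →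
      |T u y| ≤ M * N := by
    intro y
    obtain ⟨S, δ, hδ, h⟩ := hT y
    refine ⟨2 / δ, by positivity, fun u M hM hu => ?_⟩
    have h1 := h ((δ / (2 * M)) • u) (fun x _ => by
      rw [ContinuousMap.smul_apply, smul_eq_mul, abs_mul, abs_of_pos (by positivity)]
      have := hu x
      have h2 : δ / (2 * M) * |u x| ≤ δ / (2 * M) * M := by gcongr
      have h3 : δ / (2 * M) * M = δ / 2 := by field_simp
      linarith)
    rw [map_smul, ContinuousMap.smul_apply, smul_eq_mul, abs_mul,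
      abs_of_pos (show 0 < δ / (2 * M) by positivity)] at h1
    have h4 : |T u y| < 1 / (δ / (2 * M)) := by
      rw [lt_div_iff₀ (by positivity)]
      linarith
    have h5 : 1 / (δ / (2 * M)) = M * (2 / δ) := by field_simp
    rw [h5] at h4
    exact h4.le
  choose N hNpos hNb using hN
  choose y hy using fun n : ℕ => hcon n
  set c : ℕ → ℝ := fun n => (n + 1) * N (y n) + 1 with hc
  have hcpos : ∀ n, 0 < c n := fun n => by
    have := hNpos (y n)
    rw [hc]
    positivity
  set F : ℕ → Y → ℝ := fun n z => c n * max 0 (1 - |(|v z| - |v (y n)|)|) with hF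
  have hFnn : ∀ n z, 0 ≤ F n z := fun n z => mul_nonneg (hcpos n).le (le_max_left _ _)
  have hFc : ∀ n, Continuous (F n) := fun n => by
    rw [hF]
    fun_prop
  have hlf : LocallyFinite fun n => Function.support (F n) := by
    intro z₀
    refine ⟨{z | |v z| < |v z₀| + 1}, ?_, ?_⟩
    · exact (isOpen_lt (continuous_abs.comp v.continuous) continuous_const).mem_nhds (by
        show |v z₀| < |v z₀| + 1
        linarith)
    · obtain ⟨K, hK⟩ := exists_nat_gt (|v z₀| + 2)
      apply (Set.finite_Iio K).subset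
      rintro n ⟨z, hz1, hz2⟩
      have h1 : F n z ≠ 0 := hz1
      have h2 : |v (y n)| < |v z| + 1 := by
        by_contra hc'
        push Not at hc'
        apply h1
        rw [hF]
        simp only
        rw [max_eq_left, mul_zero]
        have : 1 ≤ |(|v z| - |v (y n)|)| := by
          rw [abs_sub_comm]
          exact le_trans (by linarith) (le_abs_self _)
        linarith
      have h3 := hy n
      simp only [Set.mem_ofPred_eq] at hz2
      have h4 : (n : ℝ) < K := by linarith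
      exact_mod_cast h4
  have hcont : Continuous fun z => ∑ᶠ n, F n z := continuous_finsum hFc hlf
  set w : C(Y, ℝ) := ⟨fun z => ∑ᶠ n, F n z, hcont⟩ with hw
  obtain ⟨M, hM⟩ := hX (T.symm w)
  obtain ⟨n, hn⟩ := exists_nat_gt M
  have h1 := hNb (y n) (T.symm w) (n + 1) (by positivity) (fun x => by
    have := hM x
    linarith)
  rw [LinearEquiv.apply_symm_apply] at h1
  have h2 : c n ≤ w (y n) := by
    have h3 : F n (y n) ≤ ∑ᶠ m, F m (y n) := by
      apply single_le_finsum (f := fun m => F m (y n)) n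
      · exact hlf.point_finite (y n)
      · exact fun m => hFnn m (y n)
    have h4 : F n (y n) = c n := by
      rw [hF]
      simp
    rw [← h4]
    exact h3
  have h5 : w (y n) ≤ |w (y n)| := le_abs_self _
  rw [hc] at h2
  simp only at h2
  linarith

end

/-- a countable family with the finite intersection property is attained in a pseudocompact space -/
theorem attain {Y : Type} [TopologicalSpace Y] (hY : Bdd Y) (v : ℕ → C(Y, ℝ))
    (h0 : ∀ n y, 0 ≤ v n y) (h1 : ∀ n y, v n y ≤ 1)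
    (hfin : ∀ n : ℕ, ∃ y, ∀ k < n, v k y = 1) : ∃ y, ∀ n, v n y = 1 := by
  by_contra hcon
  push Not at hcon
  set s : Y → ℝ := fun y => ∑' n, (1 / 2 : ℝ) ^ n * (1 - v n y) with hs
  have hgeo : Summable fun n : ℕ => (1 / 2 : ℝ) ^ n :=
    summable_geometric_of_lt_one (by norm_num) (by norm_num)
  have hb : ∀ n y, ‖(1 / 2 : ℝ) ^ n * (1 - v n y)‖ ≤ (1 / 2 : ℝ) ^ n := by
    intro n y
    have a := h0 n y
    have b := h1 n y
    rw [Real.norm_eq_abs, abs_mul, abs_of_pos (show (0 : ℝ) < (1 / 2) ^ n by positivity),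
      abs_of_nonneg (by linarith)]
    have : (0 : ℝ) < (1 / 2) ^ n := by positivity
    nlinarith
  have hsum : ∀ y, Summable fun n : ℕ => (1 / 2 : ℝ) ^ n * (1 - v n y) := fun y =>
    Summable.of_norm_bounded hgeo fun n => hb n y
  have hsc : Continuous s := by
    apply continuous_tsum (u := fun n => (1 / 2 : ℝ) ^ n)
    · intro n
      exact continuous_const.mul (continuous_const.sub (v n).continuous)
    · exact hgeo
    · intro n y
      exact hb n y
  have hnn : ∀ n y, 0 ≤ (1 / 2 : ℝ) ^ n * (1 - v n y) := fun n y =>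
    mul_nonneg (by positivity) (by linarith [h1 n y])
  have hpos : ∀ y, 0 < s y := by
    intro y
    obtain ⟨n, hn⟩ := hcon y
    have h2 : v n y < 1 := lt_of_le_of_ne (h1 n y) hn
    have h3 : (1 / 2 : ℝ) ^ n * (1 - v n y) ≤ s y :=
      (hsum y).le_tsum n fun m _ => hnn m y
    have h4 : 0 < (1 / 2 : ℝ) ^ n * (1 - v n y) := mul_pos (by positivity) (by linarith)
    linarith
  obtain ⟨C, hC⟩ := hY ⟨fun y => (s y)⁻¹, hsc.inv₀ fun y => (hpos y).ne'⟩
  have hC0 : 0 < C := by
    obtain ⟨y, -⟩ := hfin 0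
    have := hC y
    simp only [ContinuousMap.coe_mk] at this
    rw [abs_of_pos (inv_pos.2 (hpos y))] at this
    exact lt_of_lt_of_le (inv_pos.2 (hpos y)) this
  obtain ⟨n, hn⟩ := exists_pow_lt_of_lt_one (show 0 < C⁻¹ / 2 by positivity)
    (show (1 / 2 : ℝ) < 1 by norm_num)
  obtain ⟨y, hy⟩ := hfin n
  have h5 : s y ≤ 2 * (1 / 2 : ℝ) ^ n := by
    have hle : ∀ m, (1 / 2 : ℝ) ^ m * (1 - v m y) ≤ if m < n then 0 else (1 / 2 : ℝ) ^ m := by
      intro m
      split_ifs with hm
      · rw [hy m hm]; simp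
      · have := hb m y
        rwa [Real.norm_eq_abs, abs_of_nonneg (hnn m y)] at this
    have hsum2 : Summable fun m : ℕ => if m < n then (0 : ℝ) else (1 / 2 : ℝ) ^ m := by
      apply Summable.of_nonneg_of_le _ _ hgeo
      · intro m; split_ifs <;> positivity
      · intro m; split_ifs
        · positivity
        · exact le_refl _
    have h6 : s y ≤ ∑' m, (if m < n then (0 : ℝ) else (1 / 2 : ℝ) ^ m) :=
      (hsum y).tsum_le_tsum hle hsum2
    have h7 : (∑' m, (if m < n then (0 : ℝ) else (1 / 2 : ℝ) ^ m)) = 2 * (1 / 2 : ℝ) ^ n := by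
      rw [← hsum2.sum_add_tsum_nat_add n]
      have e1 : ∑ i ∈ Finset.range n, (if i < n then (0 : ℝ) else (1 / 2 : ℝ) ^ i) = 0 := by
        apply Finset.sum_eq_zero
        intro i hi
        rw [if_pos (Finset.mem_range.1 hi)]
      have e2 : ∀ i : ℕ, (if i + n < n then (0 : ℝ) else (1 / 2 : ℝ) ^ (i + n))
          = (1 / 2 : ℝ) ^ n * (1 / 2 : ℝ) ^ i := by
        intro i
        rw [if_neg (by omega), pow_add]
        ring
      rw [e1, zero_add]
      simp only [e2]
      rw [tsum_mul_left, tsum_geometric_of_lt_one (by norm_num) (by norm_num)]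
      norm_num
      ring
    rw [h7] at h6
    exact h6
  have h8 := hC y
  simp only [ContinuousMap.coe_mk] at h8
  rw [abs_of_pos (inv_pos.2 (hpos y))] at h8
  have h9 : C⁻¹ ≤ s y := inv_le_of_inv_le₀ (hpos y) h8
  linarith

/-- the weight of a power of the reals -/
theorem weight_pi {κ : Cardinal.{0}} (hκ : Cardinal.aleph0 ≤ κ) (I : Type)
    (hI : Cardinal.mk I ≤ κ) :
    ∃ B : Set (Set (I → ℝ)), TopologicalSpace.IsTopologicalBasis B ∧ Cardinal.mk B ≤ κ := by
  refine ⟨Set.range fun ρ : List (I × ℚ × ℚ) =>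
    {z : I → ℝ | ∀ t ∈ ρ, (t.2.1 : ℝ) < z t.1 ∧ z t.1 < t.2.2}, ?_, ?_⟩
  · apply TopologicalSpace.isTopologicalBasis_of_isOpen_of_nhds
    · rintro _ ⟨ρ, rfl⟩
      simp only
      induction ρ with
      | nil => simp
      | cons a l ih =>
        have : {z : I → ℝ | ∀ t ∈ a :: l, (t.2.1 : ℝ) < z t.1 ∧ z t.1 < t.2.2}
            = {z : I → ℝ | (a.2.1 : ℝ) < z a.1} ∩ {z : I → ℝ | z a.1 < a.2.2} ∩
              {z : I → ℝ | ∀ t ∈ l, (t.2.1 : ℝ) < z t.1 ∧ z t.1 < t.2.2} := by
          ext z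
          simp [and_assoc]
        rw [this]
        exact ((isOpen_lt continuous_const (continuous_apply _)).inter
          (isOpen_lt (continuous_apply _) continuous_const)).inter ih
    · intro a u ha hu
      obtain ⟨J, w, hw, hsub⟩ := isOpen_pi_iff.1 hu a ha
      have hch : ∀ j : I, ∃ q : ℚ × ℚ, j ∈ J → ((q.1 : ℝ) < a j ∧ a j < q.2 ∧
          ∀ t : ℝ, (q.1 : ℝ) < t → t < q.2 → t ∈ w j) := by
        intro j
        by_cases hj : j ∈ J
        · obtain ⟨ε, hε, hb⟩ := Metric.isOpen_iff.1 (hw j hj).1 _ (hw j hj).2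
          obtain ⟨q1, hq1, hq1'⟩ := exists_rat_btwn (show a j - ε < a j by linarith)
          obtain ⟨q2, hq2, hq2'⟩ := exists_rat_btwn (show a j < a j + ε by linarith)
          refine ⟨(q1, q2), fun _ => ⟨hq1', hq2, fun t ht1 ht2 => hb ?_⟩⟩
          rw [Metric.mem_ball, Real.dist_eq, abs_lt]
          constructor <;> linarith
        · exact ⟨(0, 0), fun h => absurd h hj⟩
      choose q hq using hch
      refine ⟨_, ⟨J.toList.map fun j => (j, q j), rfl⟩, ?_, ?_⟩
      · simp only [Set.mem_ofPred_eq, List.mem_map, Finset.mem_toList]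
        rintro _ ⟨j, hj, rfl⟩
        exact ⟨(hq j hj).1, (hq j hj).2.1⟩
      · intro z hz
        simp only [Set.mem_ofPred_eq, List.mem_map, Finset.mem_toList] at hz
        apply hsub
        intro j hj
        have := hz (j, q j) ⟨j, hj, rfl⟩
        exact (hq j hj).2.2 _ this.1 this.2
  · refine Cardinal.mk_range_le.trans ((Cardinal.mk_list_le_max _).trans (max_le hκ ?_))
    rw [Cardinal.mk_prod, Cardinal.lift_id, Cardinal.lift_id]
    calc Cardinal.mk I * Cardinal.mk (ℚ × ℚ) ≤ κ * κ :=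
          mul_le_mul' hI ((Cardinal.mk_le_aleph0).trans hκ)
      _ = κ := Cardinal.mul_eq_self hκ

end Pool.Agent.H8.KPc
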