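import Mathlib
import Pool.Agent.H8.KPc.Main

set_option autoImplicit false

open Set Filter Topology

namespace Pool.Agent.H8.KPc

theorem transfer {κ : Cardinal.{0}} (hκ : Cardinal.aleph0 ≤ κ) {X Y : Type} [TopologicalSpace X]
    [TopologicalSpace Y] (T : C(X, ℝ) ≃ₗ[ℝ] C(Y, ℝ))
    (hT : ∀ y : Y, ∃ S : Finset X, ∃ δ : ℝ, 0 < δ ∧
      ∀ u : C(X, ℝ), (∀ x ∈ S, |u x| < δ) → |T u y| < 1)
    (hT' : ∀ x : X, ∃ S : Finset Y, ∃ δ : ℝ, 0 < δ ∧
      ∀ v : C(Y, ℝ), (∀ y ∈ S, |v y| < δ) → |T.symm v x| < 1)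
    (hX : KP κ X) : KP κ Y := by
  classical
  have hYb : Bdd Y := bdd_transfer T hT (bdd_of_kp hκ hX)
  rintro Z _ _ ⟨B, hB, hBκ⟩ f hf
  by_contra hcon
  rw [isCompact_iff_ultrafilter_le_nhds] at hcon
  push Not at hcon
  obtain ⟨V, hV, hnc⟩ := hcon
  have hVr : Set.range f ∈ V := by
    have := Filter.le_principal_iff.1 hV
    exact this
  let P := {p : ↥B × ↥B // (p.2 : Set Z) ∉ V ∧ ∃ w : C(Z, ℝ), (∀ z ∈ (p.1 : Set Z), w z = 0) ∧
    (∀ z, z ∉ (p.2 : Set Z) → w z = 1) ∧ ∀ z, 0 ≤ w z ∧ w z ≤ 1}
  have hPκ : Cardinal.mk P ≤ κ := by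
    refine (Cardinal.mk_subtype_le _).trans ?_
    rw [← Cardinal.mul_def]
    calc Cardinal.mk ↥B * Cardinal.mk ↥B ≤ κ * κ := mul_le_mul' hBκ hBκ
      _ = κ := Cardinal.mul_eq_self hκ
  choose w hw0 hw1 hwr using fun p : P => p.2.2
  have hPV : ∀ p : P, (p.1.2 : Set Z) ∉ V := fun p => p.2.1
  -- every point is killed by some `w p`
  have hkill : ∀ y : Y, ∃ p : P, w p (f y) = 0 := by
    intro y
    have h1 := hnc (f y) ⟨y, rfl⟩
    have h2 : ∃ U ∈ B, f y ∈ U ∧ U ∉ V := by
      by_contra hc
      push Not at hc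
      apply h1
      intro s hs
      obtain ⟨U, hU, hyU, hUs⟩ := hB.mem_nhds_iff.1 hs
      exact Filter.mem_of_superset (hc U hU hyU) hUs
    obtain ⟨U, hU, hyU, hUV⟩ := h2
    obtain ⟨g, hg, hg0, hg1⟩ := CompletelyRegularSpace.completely_regular (f y) Uᶜ
      (hB.isOpen hU).isClosed_compl (fun h => h hyU)
    have hopen : IsOpen {z : Z | (g z : ℝ) < 1 / 2} :=
      isOpen_lt (continuous_subtype_val.comp hg) continuous_const
    have hymem : f y ∈ {z : Z | (g z : ℝ) < 1 / 2} := by
      simp [hg0]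
    obtain ⟨V', hV', hyV', hsub⟩ := hB.exists_subset_of_mem_open hymem hopen
    refine ⟨⟨(⟨V', hV'⟩, ⟨U, hU⟩), hUV, ⟨fun z => max 0 (2 * (g z : ℝ) - 1), by fun_prop⟩,
      ?_, ?_, ?_⟩, ?_⟩
    · intro z hz
      have : (g z : ℝ) < 1 / 2 := hsub hz
      simp only [ContinuousMap.coe_mk]
      exact max_eq_left (by linarith)
    · intro z hz
      have : g z = 1 := hg1 hz
      simp only [ContinuousMap.coe_mk, this]
      norm_num
    · intro z
      simp only [ContinuousMap.coe_mk]
      refine ⟨le_max_left _ _, max_le zero_le_one ?_⟩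
      have := (g z).2.2
      linarith
    · exact hw0 _ _ hyV'
  choose pk hpk using hkill
  let W : List P → C(Y, ℝ) := fun l => ⟨fun y => (l.map fun p => w p (f y)).prod,
    continuous_list_prod l fun p _ => (w p).continuous.comp hf⟩
  have hWapp : ∀ l y, W l y = (l.map fun p => w p (f y)).prod := fun _ _ => rfl
  have hW01 : ∀ l y, 0 ≤ W l y ∧ W l y ≤ 1 := by
    intro l y
    rw [hWapp]
    induction l with
    | nil => simp
    | cons a l ih =>
      rw [List.map_cons, List.prod_cons]
      have := hwr a (f y)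
      exact ⟨mul_nonneg this.1 ih.1, mul_le_one₀ this.2 ih.1 ih.2⟩
  have hWzero : ∀ l y, pk y ∈ l → W l y = 0 := by
    intro l y h
    rw [hWapp]
    apply List.prod_eq_zero
    rw [List.mem_map]
    exact ⟨pk y, h, hpk y⟩
  have hWone : ∀ l y, (∀ p ∈ l, w p (f y) = 1) → W l y = 1 := by
    intro l y h
    rw [hWapp]
    apply List.prod_eq_one
    intro x hx
    rw [List.mem_map] at hx
    obtain ⟨p, hp, rfl⟩ := hx
    exact h p hp
  have hlarge : ∀ l : List P, {z | ∀ p ∈ l, w p z = 1} ∈ V := by
    intro l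
    induction l with
    | nil => exact Filter.mem_of_superset (Filter.univ_mem (f := (V : Filter Z))) (fun z _ => by simp)
    | cons a l ih =>
      have ha : {z | w a z = 1} ∈ V := by
        have h1 : ((a.1.2 : Set Z))ᶜ ∈ V := Ultrafilter.compl_mem_iff_notMem.2 (hPV a)
        exact Filter.mem_of_superset h1 fun z hz => hw1 a z hz
      filter_upwards [ha, ih] with z hz1 hz2 p hp
      rcases List.mem_cons.1 hp with rfl | hp
      · exact hz1
      · exact hz2 p hp
  let u : List P → C(X, ℝ) := fun l => T.symm (W l)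
  let Δ : X → (List P → ℝ) := fun x l => u l x
  have hΔ : Continuous Δ := continuous_pi fun l => (u l).continuous
  have : T35Space (List P → ℝ) :=
    { toT0Space := inferInstance, toCompletelyRegularSpace := inferInstance }
  have hcomp : IsCompact (Set.range Δ) := hX (List P → ℝ)
    (weight_pi hκ (List P) ((Cardinal.mk_list_le_max _).trans (max_le hκ hPκ))) Δ hΔ
  -- finite families
  have hF : ∀ n m : ℕ, ∃ F : Finset (List P), ∀ s : Fin n → X, ∃ l ∈ F,
      ∀ i, |u l (s i)| < 1 / ((m : ℝ) + 1) := by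
    intro n m
    have hc := isCompact_univ_pi (fun _ : Fin n => hcomp)
    obtain ⟨F, hF⟩ := hc.elim_finite_subcover
      (fun l : List P => {z : Fin n → (List P → ℝ) | ∀ i, |z i l| < 1 / ((m : ℝ) + 1)}) (by
        intro l
        simp only [Set.ofPred_forall]
        apply isOpen_iInter_of_finite
        intro i
        exact isOpen_lt (continuous_abs.comp ((continuous_apply l).comp (continuous_apply i)))
          continuous_const) (by
        intro z hz
        simp only [Set.mem_pi, Set.mem_univ, true_implies, Set.mem_range] at hz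
        choose x hx using hz
        choose S δ hδ hS using fun i => hT' (x i)
        simp only [Set.mem_iUnion]
        refine ⟨((Finset.univ.biUnion S).toList.map pk), ?_⟩
        intro i
        have h1 := hS i (((m : ℝ) + 1) • W ((Finset.univ.biUnion S).toList.map pk)) (by
          intro y hy
          rw [ContinuousMap.smul_apply, hWzero _ y (by
            rw [List.mem_map]
            exact ⟨y, by
              rw [Finset.mem_toList, Finset.mem_biUnion]
              exact ⟨i, Finset.mem_univ _, hy⟩, rfl⟩)]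
          simpa using hδ i)
        rw [map_smul, ContinuousMap.smul_apply, smul_eq_mul, abs_mul,
          abs_of_pos (show (0 : ℝ) < m + 1 by positivity)] at h1
        have h2 : z i ((Finset.univ.biUnion S).toList.map pk)
            = T.symm (W ((Finset.univ.biUnion S).toList.map pk)) (x i) := by
          rw [← hx i]
        rw [h2, lt_div_iff₀ (by positivity)]
        linarith)
    refine ⟨F, fun s => ?_⟩
    have h3 : (fun i => Δ (s i)) ∈ (Set.univ.pi fun _ : Fin n => Set.range Δ) := by
      intro i _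
      exact ⟨s i, rfl⟩
    have h4 := hF h3
    simp only [Set.mem_iUnion] at h4
    obtain ⟨l, hl, h5⟩ := h4
    exact ⟨l, hl, h5⟩
  choose F hF using hF
  -- countable family
  have hLc : ({[]} ∪ ⋃ n, ⋃ m, (F n m : Set (List P))).Countable :=
    (Set.countable_singleton _).union
      (Set.countable_iUnion fun n => Set.countable_iUnion fun m => (F n m).countable_toSet)
  obtain ⟨e, he⟩ := hLc.exists_eq_range ⟨[], Or.inl rfl⟩
  obtain ⟨y, hy⟩ := attain hYb (fun n => W (e n)) (fun n y => (hW01 _ _).1)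
    (fun n y => (hW01 _ _).2) (by
      intro n
      have h1 : ∀ n : ℕ, {z | ∀ k < n, ∀ p ∈ e k, w p z = 1} ∈ V := by
        intro n
        induction n with
        | zero => exact Filter.mem_of_superset (Filter.univ_mem (f := (V : Filter Z))) (fun z _ => by simp)
        | succ n ih =>
          filter_upwards [ih, hlarge (e n)] with z h1 h2 k hk
          rcases Nat.lt_succ_iff_lt_or_eq.1 hk with h | rfl
          · exact h1 k h
          · exact h2
      obtain ⟨z, hz1, ⟨y, rfl⟩⟩ := V.nonempty_of_mem (Filter.inter_mem (h1 n) hVr)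
      exact ⟨y, fun k hk => hWone _ _ (hz1 k hk)⟩)
  obtain ⟨S, δ, hδ, hS⟩ := hT y
  obtain ⟨m, hm⟩ := exists_nat_one_div_lt hδ
  obtain ⟨l, hl, hls⟩ := hF S.card m (fun i => (S.equivFin.symm i : X))
  have h1 : W l y = 1 := by
    have : l ∈ Set.range e := by
      rw [← he]
      right
      simp only [Set.mem_iUnion]
      exact ⟨_, _, hl⟩
    obtain ⟨n, rfl⟩ := this
    exact hy n
  have h2 := hS (u l) (by
    intro x hx
    have := hls (S.equivFin ⟨x, hx⟩)
    rw [Equiv.symm_apply_apply] at this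
    exact this.trans hm)
  have h3 : T (u l) = W l := T.apply_symm_apply _
  rw [h3, h1] at h2
  norm_num at h2

theorem main :
    ∀ (κ : Cardinal.{0}), Cardinal.aleph0 ≤ κ →
    ∀ (X Y : Type) [TopologicalSpace X] [T35Space X] [TopologicalSpace Y] [T35Space Y],
      (∃ T : C(X, ℝ) ≃ₗ[ℝ] C(Y, ℝ),
        @Continuous C(X, ℝ) (Y → ℝ)
            (TopologicalSpace.induced (fun g : C(X, ℝ) => (g : X → ℝ))
              (inferInstance : TopologicalSpace (X → ℝ)))
            (inferInstance : TopologicalSpace (Y → ℝ))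
            (fun g => ((T g : C(Y, ℝ)) : Y → ℝ)) ∧
        @Continuous C(Y, ℝ) (X → ℝ)
            (TopologicalSpace.induced (fun g : C(Y, ℝ) => (g : Y → ℝ))
              (inferInstance : TopologicalSpace (Y → ℝ)))
            (inferInstance : TopologicalSpace (X → ℝ))
            (fun g => ((T.symm g : C(X, ℝ)) : X → ℝ))) →
      (∀ (Z : Type) [TopologicalSpace Z] [T35Space Z],
        (∃ B : Set (Set Z), TopologicalSpace.IsTopologicalBasis B ∧ Cardinal.mk B ≤ κ) →
        ∀ f : X → Z, Continuous f → IsCompact (Set.range f)) →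
      (∀ (Z : Type) [TopologicalSpace Z] [T35Space Z],
        (∃ B : Set (Set Z), TopologicalSpace.IsTopologicalBasis B ∧ Cardinal.mk B ≤ κ) →
        ∀ f : Y → Z, Continuous f → IsCompact (Set.range f)) := by
  rintro κ hκ X Y _ _ _ _ ⟨T, h1, h2⟩ hX
  exact transfer hκ T (fun y => evalbound (fun g => T g) (map_zero T) h1 y)
    (fun x => evalbound (fun g => T.symm g) (map_zero T.symm) h2 x) hX

end Pool.Agent.H8.KPc
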